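import Pool.Agent.Y811.PC.Stm3

/-!
# The parabolic contact law for harmonic measure
-/

set_option autoImplicit false

namespace Pool.Agent.Y606.PC

open Complex Metric Set Filter Topology Pool.Agent.H712R2 Pool.Agent.H713R2 N62a1eb23
open Pool.Agent.Y811.PC

/-! ### averages over the circle -/

/-- the proportion of the circle where `g ≤ ρ` -/
noncomputable def mG (g : ℝ → ℝ) (ρ : ℝ) : ℝ :=
  (MeasureTheory.volume {θ : ℝ | 0 < θ ∧ θ ≤ 2 * Real.pi ∧ g θ ≤ ρ}).toReal / (2 * Real.pi)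

/-- the mean of the positive part of `log (R / g)` -/
noncomputable def aG (g : ℝ → ℝ) (R : ℝ) : ℝ :=
  (2 * Real.pi)⁻¹ * ∫ θ in Ioc 0 (2 * Real.pi), max 0 (Real.log (R / g θ))

theorem cont_aux {g : ℝ → ℝ} (hg : Continuous g) (hg0 : ∀ θ, 0 < g θ) {R : ℝ} (hR : 0 < R) :
    Continuous fun θ => max 0 (Real.log (R / g θ)) := by
  refine continuous_const.max (Continuous.log ?_ ?_)
  · exact continuous_const.div hg fun θ => (hg0 θ).ne'
  · intro θ
    exact (div_pos hR (hg0 θ)).ne'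

theorem int_aux {g : ℝ → ℝ} (hg : Continuous g) (hg0 : ∀ θ, 0 < g θ) {R : ℝ} (hR : 0 < R) :
    MeasureTheory.IntegrableOn (fun θ => max 0 (Real.log (R / g θ))) (Ioc 0 (2 * Real.pi)) :=
  ((cont_aux hg hg0 hR).integrableOn_Icc).mono_set Ioc_subset_Icc_self

theorem int_ind {g : ℝ → ℝ} (hg : Continuous g) (ρ c : ℝ) :
    MeasureTheory.IntegrableOn ({θ | g θ ≤ ρ}.indicator fun _ => c) (Ioc 0 (2 * Real.pi)) := by
  apply MeasureTheory.Integrable.indicator
  · exact MeasureTheory.integrableOn_const measure_Ioc_lt_top.ne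
  · exact (isClosed_le hg continuous_const).measurableSet

theorem mG_int {g : ℝ → ℝ} (hg : Continuous g) (ρ c : ℝ) :
    ∫ θ in Ioc 0 (2 * Real.pi), {θ | g θ ≤ ρ}.indicator (fun _ => c) θ =
      2 * Real.pi * (mG g ρ * c) := by
  have hm : MeasurableSet {θ | g θ ≤ ρ} := (isClosed_le hg continuous_const).measurableSet
  rw [MeasureTheory.setIntegral_indicator hm, MeasureTheory.setIntegral_const, smul_eq_mul]
  have e : Ioc 0 (2 * Real.pi) ∩ {θ | g θ ≤ ρ} =
      {θ : ℝ | 0 < θ ∧ θ ≤ 2 * Real.pi ∧ g θ ≤ ρ} := by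
    ext θ
    simp only [mem_inter_iff, mem_Ioc, mem_ofPred_eq, and_assoc]
  rw [e]
  unfold mG MeasureTheory.Measure.real
  have hpi := Real.pi_pos
  field_simp

theorem lemA {g : ℝ → ℝ} (hg : Continuous g) (hg0 : ∀ θ, 0 < g θ) {K ρ : ℝ} (hK : 1 < K)
    (hρ : 0 < ρ) : mG g ρ * Real.log K ≤ aG g (K * ρ) := by
  have hpi := Real.pi_pos
  have hKρ : 0 < K * ρ := by positivity
  have h := MeasureTheory.setIntegral_mono_on (int_ind hg ρ (Real.log K))
    (int_aux hg hg0 hKρ) measurableSet_Ioc (fun θ _ => by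
      by_cases hθ : g θ ≤ ρ
      · rw [indicator_of_mem (by exact hθ)]
        refine le_trans ?_ (le_max_right _ _)
        apply Real.log_le_log (by linarith)
        rw [le_div_iff₀ (hg0 θ)]
        exact mul_le_mul_of_nonneg_left hθ (by linarith)
      · rw [indicator_of_notMem (by exact hθ)]
        exact le_max_left _ _)
  rw [mG_int hg] at h
  unfold aG
  rw [inv_mul_eq_div, le_div_iff₀ (by positivity)]
  linarith

theorem lemB {g : ℝ → ℝ} (hg : Continuous g) (hg0 : ∀ θ, 0 < g θ) {S ρ : ℝ}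
    (hρ : 0 < ρ) : aG g ρ ≤ mG g ρ * S + aG g (Real.exp (-S) * ρ) := by
  have hpi := Real.pi_pos
  have hρ' : 0 < Real.exp (-S) * ρ := by positivity
  have h := MeasureTheory.setIntegral_mono_on (int_aux hg hg0 hρ)
    ((int_ind hg ρ S).add (int_aux hg hg0 hρ')) measurableSet_Ioc (fun θ _ => by
      show max 0 (Real.log (ρ / g θ)) ≤ {θ | g θ ≤ ρ}.indicator (fun _ => S) θ +
        max 0 (Real.log (Real.exp (-S) * ρ / g θ))
      have hq : 0 < ρ / g θ := div_pos hρ (hg0 θ)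
      have e : Real.log (Real.exp (-S) * ρ / g θ) = -S + Real.log (ρ / g θ) := by
        rw [mul_div_assoc, Real.log_mul (Real.exp_pos _).ne' hq.ne', Real.log_exp]
      by_cases hθ : g θ ≤ ρ
      · rw [indicator_of_mem (by exact hθ), e]
        have h1 : 0 ≤ Real.log (ρ / g θ) := by
          apply Real.log_nonneg
          rw [le_div_iff₀ (hg0 θ)]
          linarith
        rw [max_eq_right h1]
        have := le_max_right 0 (-S + Real.log (ρ / g θ))
        linarith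
      · rw [indicator_of_notMem (by exact hθ)]
        have h1 : Real.log (ρ / g θ) ≤ 0 := by
          apply Real.log_nonpos hq.le
          rw [div_le_one (hg0 θ)]
          exact (not_le.1 hθ).le
        rw [max_eq_left h1, zero_add]
        exact le_max_left _ _)
  have h2 : ∫ θ in Ioc 0 (2 * Real.pi), (({θ | g θ ≤ ρ}.indicator fun _ => S) +
      fun θ => max 0 (Real.log (Real.exp (-S) * ρ / g θ))) θ =
      2 * Real.pi * (mG g ρ * S) + 2 * Real.pi * aG g (Real.exp (-S) * ρ) := by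
    rw [← mG_int hg, aG, ← mul_assoc, mul_inv_cancel₀ (by positivity), one_mul]
    exact MeasureTheory.integral_add (int_ind hg ρ S) (int_aux hg hg0 hρ')
  rw [h2] at h
  have h3 : aG g ρ = (2 * Real.pi)⁻¹ * ∫ θ in Ioc 0 (2 * Real.pi), max 0 (Real.log (ρ / g θ)) :=
    rfl
  rw [h3, inv_mul_eq_div, div_le_iff₀ (by positivity)]
  linarith

/-! ### the escape rate -/

/-- the bounds for the escape rate at the distance `ρ` -/
def Bd (ψ : ℂ → ℂ) (c₀ : ℂ) (p A ε ρ : ℝ) : Prop :=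
  0 < ρ ∧ Real.exp (-(A + ε) / ρ ^ p) ≤ sSup (Dr ψ c₀ ρ) ∧
    sSup (Dr ψ c₀ ρ) ≤ Real.exp (-(A - ε) / ρ ^ p) ∧ BddAbove (Dr ψ c₀ ρ) ∧
      (Dr ψ c₀ ρ).Nonempty

theorem bd_ev {ψ : ℂ → ℂ} {c₀ : ℂ} {p A ε : ℝ} (hε : 0 < ε) (hεA : ε < A)
    (hT : Tendsto (fun ρ : ℝ => ρ ^ p * Real.log (1 / sSup (Dr ψ c₀ ρ))) (𝓝[>] 0) (𝓝 A)) :
    ∀ᶠ ρ in 𝓝[>] (0 : ℝ), Bd ψ c₀ p A ε ρ := by
  have h1 : ∀ᶠ ρ in 𝓝[>] (0 : ℝ), A - ε < ρ ^ p * Real.log (1 / sSup (Dr ψ c₀ ρ)) :=
    hT.eventually (lt_mem_nhds (by linarith))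
  have h2 : ∀ᶠ ρ in 𝓝[>] (0 : ℝ), ρ ^ p * Real.log (1 / sSup (Dr ψ c₀ ρ)) < A + ε :=
    hT.eventually (gt_mem_nhds (by linarith))
  filter_upwards [h1, h2, self_mem_nhdsWithin] with ρ h1 h2 h0
  have h0 : 0 < ρ := h0
  have hp : 0 < ρ ^ p := Real.rpow_pos_of_pos h0 p
  set s := sSup (Dr ψ c₀ ρ) with hs
  have hs0 : 0 ≤ s := by
    apply Real.sSup_nonneg
    rintro h ⟨w, hw, rfl, _⟩
    linarith
  have hl : 0 < Real.log (1 / s) := by
    by_contra hn
    have := mul_nonpos_of_nonneg_of_nonpos hp.le (not_lt.1 hn)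
    linarith
  have hsne : s ≠ 0 := by
    intro h
    rw [h] at hl
    simp at hl
  have hspos : 0 < s := lt_of_le_of_ne hs0 hsne.symm
  have hlog : Real.log (1 / s) = -Real.log s := by
    rw [one_div, Real.log_inv]
  rw [hlog] at h1 h2
  refine ⟨h0, ?_, ?_, ?_, ?_⟩
  · show Real.exp (-(A + ε) / ρ ^ p) ≤ s
    rw [← Real.exp_log hspos]
    apply Real.exp_le_exp.2
    rw [div_le_iff₀ hp]
    nlinarith
  · show s ≤ Real.exp (-(A - ε) / ρ ^ p)
    rw [← Real.exp_log hspos]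
    apply Real.exp_le_exp.2
    rw [le_div_iff₀ hp]
    nlinarith
  · by_contra hn
    exact hsne (Real.sSup_of_not_bddAbove hn)
  · by_contra hn
    rw [not_nonempty_iff_eq_empty] at hn
    apply hsne
    rw [hs, hn, Real.sSup_empty]

theorem tends_mul {K : ℝ} (hK : 0 < K) : Tendsto (fun ρ : ℝ => K * ρ) (𝓝[>] 0) (𝓝[>] 0) := by
  apply tendsto_nhdsWithin_of_tendsto_nhds_of_eventually_within
  · have : Tendsto (fun ρ : ℝ => K * ρ) (𝓝 0) (𝓝 (K * 0)) := tendsto_const_nhds.mul tendsto_id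
    rw [mul_zero] at this
    exact this.mono_left nhdsWithin_le_nhds
  · filter_upwards [self_mem_nhdsWithin] with ρ hρ
    exact mul_pos hK hρ

theorem exp_ev {γ p c : ℝ} (hγ : 0 < γ) (hp : 0 < p) (hc : 0 < c) :
    ∀ᶠ ρ in 𝓝[>] (0 : ℝ), Real.exp (-γ / ρ ^ p) ≤ c := by
  have h1 : Tendsto (fun ρ : ℝ => ρ ^ p) (𝓝[>] 0) (𝓝[>] 0) := by
    apply tendsto_nhdsWithin_of_tendsto_nhds_of_eventually_within
    · have : ContinuousAt (fun ρ : ℝ => ρ ^ p) 0 := Real.continuousAt_rpow_const 0 p (Or.inr hp.le)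
      have h := this.tendsto
      simp only [Real.zero_rpow hp.ne'] at h
      exact h.mono_left nhdsWithin_le_nhds
    · filter_upwards [self_mem_nhdsWithin] with ρ hρ
      exact Real.rpow_pos_of_pos hρ p
  have h2 : Tendsto (fun ρ : ℝ => -γ / ρ ^ p) (𝓝[>] 0) atBot := by
    have h3 := (tendsto_inv_nhdsGT_zero.comp h1).const_mul_atTop_of_neg (r := -γ) (by linarith)
    refine h3.congr fun ρ => ?_
    rw [div_eq_mul_inv]
    rfl
  have h4 := Real.tendsto_exp_atBot.comp h2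
  exact h4.eventually (ge_mem_nhds hc)

theorem circ {d : ℕ} {ψ : ℂ → ℂ} (hψ : IsExteriorMap (multibrotSet d) ψ) {c₀ : ℂ}
    (hc₀ : c₀ ∈ multibrotSet d) {r : ℝ} (hr : 1 < r) : ∃ g : ℝ → ℝ, Continuous g ∧
      (∀ θ, 0 < g θ) ∧ (∀ ρ, mr ψ c₀ ρ r = mG g ρ) ∧
        ∀ R, Real.circleAverage (fun x => max 0 (Real.log (R / ‖ψ (r * x) - c₀‖))) 0 1 =
          aG g R := by
  have hn : ∀ θ : ℝ, (r : ℂ) * Complex.exp (θ * I) ∈ {z : ℂ | 1 < ‖z‖} := by
    intro θ
    show 1 < ‖(r : ℂ) * Complex.exp (θ * I)‖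
    rw [norm_mul, Complex.norm_exp_ofReal_mul_I, mul_one, Complex.norm_real, Real.norm_eq_abs]
    exact lt_of_lt_of_le hr (le_abs_self r)
  refine ⟨fun θ => ‖ψ (r * Complex.exp (θ * I)) - c₀‖, ?_, ?_, fun ρ => rfl, fun R => ?_⟩
  · have hc : Continuous fun θ : ℝ => (r : ℂ) * Complex.exp (θ * I) := by fun_prop
    exact ((hψ.diff.continuousOn.comp_continuous hc hn).sub continuous_const).norm
  · intro θ
    rw [norm_pos_iff, sub_ne_zero]
    intro h
    have h1 : ψ (r * Complex.exp (θ * I)) ∈ (multibrotSet d)ᶜ := by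
      rw [← hψ.image]
      exact ⟨_, hn θ, rfl⟩
    rw [h] at h1
    exact h1 hc₀
  · unfold Real.circleAverage aG
    rw [intervalIntegral.integral_of_le (by positivity), smul_eq_mul]
    congr 1
    apply MeasureTheory.setIntegral_congr_fun measurableSet_Ioc
    intro θ _
    simp only [circleMap, zero_add, Complex.ofReal_one, one_mul]

theorem bd_pos {ψ : ℂ → ℂ} {c₀ : ℂ} {p A ε R : ℝ} (h : Bd ψ c₀ p A ε R) :
    0 < sSup (Dr ψ c₀ R) := lt_of_lt_of_le (Real.exp_pos _) h.2.1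

theorem bd_le {ψ : ℂ → ℂ} {c₀ : ℂ} {p A ε R : ℝ} (h : Bd ψ c₀ p A ε R) {w : ℂ} (hw : 1 < ‖w‖)
    (hR : ‖ψ w - c₀‖ ≤ R) : ‖w‖ ≤ 1 + sSup (Dr ψ c₀ R) := by
  have := le_csSup h.2.2.2.1 ⟨w, hw, rfl, hR⟩
  linarith

theorem avg_le (h2 : S_HM2) {d : ℕ} (hd : 2 ≤ d) {ψ : ℂ → ℂ}
    (hψ : IsExteriorMap (multibrotSet d) ψ) {c₀ : ℂ} (hc₀ : c₀ ∈ multibrotSet d) {r : ℝ}
    (hr : 1 < r) {p A ε R : ℝ} (hB : Bd ψ c₀ p A ε R) :
    Real.circleAverage (fun x => max 0 (Real.log (R / ‖ψ (r * x) - c₀‖))) 0 1 ≤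
      Real.exp (-(A - ε) / R ^ p) := by
  have hs := bd_pos hB
  have h := h2 d hd ψ hψ c₀ r R (1 + sSup (Dr ψ c₀ R)) hc₀ hr hB.1 (by linarith)
    (fun w hw hwR => bd_le hB hw hwR)
  have h' := Real.log_le_sub_one_of_pos (show 0 < 1 + sSup (Dr ψ c₀ R) by linarith)
  have := hB.2.2.1
  linarith

/-- the law for harmonic measure -/
theorem t_HM (h2 : S_HM2) (h3 : S_HM3) : S_HM := by
  intro d c₀ p A hd hc₀ hp hA ψ hψ hT δ hδ
  -- the constants
  obtain ⟨ε, hε, hεA, hεδ⟩ : ∃ ε : ℝ, 0 < ε ∧ ε < A ∧ ε < δ :=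
    ⟨min A δ / 2, by positivity, by have := min_le_left A δ; linarith,
      by have := min_le_right A δ; linarith⟩
  obtain ⟨K, hK1, hK2, hK3⟩ : ∃ K : ℝ, 1 < K ∧ K ^ p * (A - δ) < A - ε ∧
      (A + ε) * K ^ p < A + δ := by
    have hc : ContinuousAt (fun K : ℝ => K ^ p) 1 :=
      Real.continuousAt_rpow_const 1 p (Or.inl one_ne_zero)
    have h4 : Tendsto (fun K : ℝ => K ^ p * (A - δ)) (𝓝[>] 1) (𝓝 (1 * (A - δ))) := by
      have := (hc.tendsto.mul_const (A - δ))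
      simp only [Real.one_rpow] at this
      exact this.mono_left nhdsWithin_le_nhds
    have h5 : Tendsto (fun K : ℝ => (A + ε) * K ^ p) (𝓝[>] 1) (𝓝 ((A + ε) * 1)) := by
      have := (hc.tendsto.const_mul (A + ε))
      simp only [Real.one_rpow] at this
      exact this.mono_left nhdsWithin_le_nhds
    obtain ⟨K, hK, hK', hK''⟩ := ((h4.eventually (gt_mem_nhds
      (show 1 * (A - δ) < A - ε by linarith))).and ((h5.eventually (gt_mem_nhds
      (show (A + ε) * 1 < A + δ by linarith))).and self_mem_nhdsWithin)).exists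
    exact ⟨K, hK'', hK, hK'⟩
  have hK0 : 0 < K := by linarith
  have hlK : 0 < Real.log K := Real.log_pos hK1
  have hKp : 0 < K ^ p := Real.rpow_pos_of_pos hK0 p
  obtain ⟨S, hS0, hS⟩ : ∃ S : ℝ, 0 < S ∧
      (A + ε) * K ^ p + 1 ≤ (A - ε) * Real.exp (p * S) := by
    have h6 : Tendsto (fun S : ℝ => (A - ε) * Real.exp (p * S)) atTop atTop :=
      (Real.tendsto_exp_atTop.comp (tendsto_id.const_mul_atTop hp)).const_mul_atTop (by linarith)
    obtain ⟨S, hS, hS'⟩ := ((h6.eventually (eventually_ge_atTop ((A + ε) * K ^ p + 1))).and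
      (eventually_gt_atTop 0)).exists
    exact ⟨S, hS', hS⟩
  have hγ : 0 < (A - ε) / K ^ p - (A - δ) := by
    have : A - δ < (A - ε) / K ^ p := by
      rw [lt_div_iff₀ hKp]
      linarith
    linarith
  have hγ' : 0 < (A + δ) - (A + ε) * K ^ p := by linarith
  -- everything that holds for small `ρ`
  have hB := bd_ev hε hεA hT
  have hB1 := (tends_mul hK0).eventually hB
  have hB2 := (tends_mul (inv_pos.2 hK0)).eventually hB
  have hB3 := (tends_mul (Real.exp_pos (-S))).eventually hB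
  have hE1 := exp_ev hγ hp hlK
  have hE2 := exp_ev (γ := 1) one_pos hp (show 0 < Real.log K / 32 by positivity)
  have hE3 := exp_ev hγ' hp (show 0 < Real.log K / (32 * S) by positivity)
  have hev : ∀ᶠ ρ in 𝓝[>] (0 : ℝ), ∃ r₀ : ℝ, 1 < r₀ ∧
      ∀ r : ℝ, 1 < r → r < r₀ → Real.exp (-(A + δ) / ρ ^ p) ≤ mr ψ c₀ ρ r ∧
        mr ψ c₀ ρ r ≤ Real.exp (-(A - δ) / ρ ^ p) := by
    filter_upwards [hB1, hB2, hB3, hE1, hE2, hE3, self_mem_nhdsWithin] with ρ b1 b2 b3 e1 e2 e3 hρ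
    have hρ : 0 < ρ := hρ
    have hρp : 0 < ρ ^ p := Real.rpow_pos_of_pos hρ p
    have hs1 := bd_pos b2
    have hs2 : sSup (Dr ψ c₀ (K⁻¹ * ρ)) ≤ 1 := by
      refine b2.2.2.1.trans ?_
      rw [← Real.exp_zero]
      apply Real.exp_le_exp.2
      apply div_nonpos_of_nonpos_of_nonneg
      · linarith
      · exact Real.rpow_nonneg b2.1.le p
    obtain ⟨h, ⟨w, hw, rfl, hwR⟩, hlt⟩ := exists_lt_of_lt_csSup b2.2.2.2.2
      (show sSup (Dr ψ c₀ (K⁻¹ * ρ)) / 2 < sSup (Dr ψ c₀ (K⁻¹ * ρ)) by linarith)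
    have hwle := bd_le b2 hw hwR
    have hs3 := b2.2.1
    generalize hsdef : sSup (Dr ψ c₀ (K⁻¹ * ρ)) = s at hs1 hs2 hlt hwle hs3
    refine ⟨1 + s / 4, by linarith, fun r hr hr0 => ?_⟩
    obtain ⟨g, hg, hg0, hm, ha⟩ := circ hψ hc₀ hr
    rw [hm]
    have hmul : ∀ a : ℝ, 0 < a → (a * ρ) ^ p = a ^ p * ρ ^ p := fun a ha =>
      Real.mul_rpow ha.le hρ.le
    constructor
    · -- lower bound
      have hrw : r < ‖w‖ := by linarith
      have l1 := h3 d hd ψ hψ c₀ w r ρ hc₀ hr hrw hρ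
      rw [ha] at l1
      have hψw : 0 < ‖ψ w - c₀‖ := by
        rw [norm_pos_iff, sub_ne_zero]
        intro h
        have h1 : ψ w ∈ (multibrotSet d)ᶜ := by
          rw [← hψ.image]
          exact ⟨_, hw, rfl⟩
        rw [h] at h1
        exact h1 hc₀
      have l2 : Real.log K ≤ Real.log (ρ / ‖ψ w - c₀‖) := by
        apply Real.log_le_log hK0
        rw [le_div_iff₀ hψw]
        calc K * ‖ψ w - c₀‖ ≤ K * (K⁻¹ * ρ) := mul_le_mul_of_nonneg_left hwR hK0.le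
          _ = ρ := by field_simp
      have l3 : 0 ≤ aG g ρ := by
        unfold aG
        apply mul_nonneg (by positivity)
        exact MeasureTheory.integral_nonneg fun θ => le_max_left _ _
      have l4 : (‖w‖ + r) / (‖w‖ - r) * aG g ρ ≤ 16 / s * aG g ρ := by
        apply mul_le_mul_of_nonneg_right _ l3
        rw [div_le_div_iff₀ (by linarith) hs1]
        nlinarith
      have l5 : s * Real.log K / 16 ≤ aG g ρ := by
        have : Real.log K ≤ 16 / s * aG g ρ := l2.trans (l1.trans l4)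
        rw [div_mul_eq_mul_div, le_div_iff₀ hs1] at this
        linarith
      have l6 := lemB hg hg0 (S := S) hρ
      have l7 := avg_le h2 hd hψ hc₀ hr b3
      rw [ha] at l7
      have l8 : -(A - ε) / (Real.exp (-S) * ρ) ^ p ≤
          -((A + ε) * K ^ p) / ρ ^ p + -1 / ρ ^ p := by
        rw [hmul _ (Real.exp_pos _), ← Real.exp_mul, show -S * p = -(p * S) by ring,
          Real.exp_neg, ← add_div, inv_mul_eq_div, div_div_eq_mul_div,
          div_le_div_iff_of_pos_right hρp]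
        linarith
      have l9 : Real.exp (-(A - ε) / (Real.exp (-S) * ρ) ^ p) ≤
          Real.exp (-((A + ε) * K ^ p) / ρ ^ p) * (Real.log K / 32) := by
        refine (Real.exp_le_exp.2 l8).trans ?_
        rw [Real.exp_add]
        exact mul_le_mul_of_nonneg_left e2 (Real.exp_pos _).le
      have l10 : -(A + ε) / (K⁻¹ * ρ) ^ p = -((A + ε) * K ^ p) / ρ ^ p := by
        rw [hmul _ (inv_pos.2 hK0), Real.inv_rpow hK0.le, inv_mul_eq_div, div_div_eq_mul_div]
        ring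
      rw [l10] at hs3
      have l11 : Real.exp (-(A + δ) / ρ ^ p) = Real.exp (-((A + ε) * K ^ p) / ρ ^ p) *
          Real.exp (-((A + δ) - (A + ε) * K ^ p) / ρ ^ p) := by
        rw [← Real.exp_add, ← add_div]
        congr 2
        ring
      rw [l11]
      have hE0 := Real.exp_pos (-((A + ε) * K ^ p) / ρ ^ p)
      generalize Real.exp (-((A + ε) * K ^ p) / ρ ^ p) = E at l9 hs3 hE0 ⊢
      have hE : Real.log K * E ≤ Real.log K * s := mul_le_mul_of_nonneg_left hs3 hlK.le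
      have l12 : E * (Real.log K / 32) ≤ mG g ρ * S := by linarith
      have l13 := mul_le_mul_of_nonneg_left e3 hE0.le
      refine l13.trans ?_
      have l14 : E * (Real.log K / (32 * S)) = E * (Real.log K / 32) / S := by
        field_simp
      rw [l14, div_le_iff₀ hS0]
      exact l12
    · -- upper bound
      have u1 := lemA hg hg0 hK1 hρ
      have u2 := avg_le h2 hd hψ hc₀ hr b1
      rw [ha] at u2
      have u3 : -(A - ε) / (K * ρ) ^ p = -(A - δ) / ρ ^ p +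
          -((A - ε) / K ^ p - (A - δ)) / ρ ^ p := by
        rw [hmul K hK0]
        field_simp
        ring
      rw [u3, Real.exp_add] at u2
      have u4 := mul_le_mul_of_nonneg_left e1 (Real.exp_pos (-(A - δ) / ρ ^ p)).le
      exact le_of_mul_le_mul_right (u1.trans (u2.trans u4)) hlK
  obtain ⟨u, hu, hu'⟩ := mem_nhdsGT_iff_exists_Ioo_subset.1 hev
  exact ⟨u, hu, fun ρ h0 h1 => hu' ⟨h0, h1⟩⟩

end Pool.Agent.Y606.PC
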